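import Pool.Agent.W78.GA.Basic

/-!
Project GA (helper78), task GA-4 (helper45): lattice points.
-/

set_option autoImplicit false

namespace Pool.Agent.W45.GA

open Finset MeasureTheory
open Pool.Agent.W78.GA

/-! ### partial summation -/

theorem partial_sum (rr : ℕ → ℝ) (κ C : ℝ) (hC0 : 0 ≤ C)
    (hrr : ∀ X : ℝ, 1 ≤ X → |∑ n ∈ Icc 0 ⌊X⌋₊, rr n - κ * X| ≤ C * Real.sqrt X)
    (A B : ℝ) (hA : 1 ≤ A) (hAB : A ≤ B) :
    |∑ n ∈ Ioc ⌊A⌋₊ ⌊B⌋₊, 1 / (n : ℝ) * rr n - κ * Real.log (B / A)| ≤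
      4 * C / Real.sqrt A := by
  have hA0 : 0 < A := by linarith
  have hB0 : 0 < B := by linarith
  have habel := sum_mul_eq_sub_sub_integral_mul rr (f := fun t : ℝ => 1 / t) hA0.le hAB
    (fun t ht => by
      have : t ≠ 0 := by have := ht.1; intro h; rw [h] at this; linarith
      exact (differentiableAt_const _).div differentiableAt_id this)
    (by
      have hd : ∀ t ∈ Set.Icc A B, deriv (fun t : ℝ => 1 / t) t = -(1 / t ^ 2) := by
        intro t ht
        have h0 : t ≠ 0 := by have := ht.1; intro h; rw [h] at this; linarith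
        simp only [one_div]
        rw [deriv_inv']
      apply ContinuousOn.integrableOn_Icc
      refine ContinuousOn.congr (f := fun t : ℝ => -(1 / t ^ 2)) ?_ hd
      apply ContinuousOn.neg
      apply ContinuousOn.div continuousOn_const (by fun_prop)
      intro t ht
      have : 0 < t := lt_of_lt_of_le hA0 ht.1
      positivity)
  rw [habel]
  set S : ℝ → ℝ := fun t => ∑ k ∈ Icc 0 ⌊t⌋₊, rr k with hS
  -- error function
  set E : ℝ → ℝ := fun t => S t - κ * t with hE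
  have hEb : ∀ t : ℝ, 1 ≤ t → |E t| ≤ C * Real.sqrt t := fun t ht => hrr t ht
  have hint : ∫ t in Set.Ioc A B, deriv (fun t : ℝ => 1 / t) t * ∑ k ∈ Icc 0 ⌊t⌋₊, rr k =
      -(∫ t in Set.Ioc A B, (κ * t⁻¹ + E t / t ^ 2)) := by
    rw [← integral_neg]
    apply setIntegral_congr_fun measurableSet_Ioc
    intro t ht
    have h0 : 0 < t := hA0.trans ht.1
    simp only [one_div]
    rw [deriv_inv']
    simp only [hE, hS]
    field_simp
    ring
  have hI1 : IntegrableOn (fun t : ℝ => deriv (fun t : ℝ => 1 / t) t * ∑ k ∈ Icc 0 ⌊t⌋₊, rr k)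
      (Set.Icc A B) := by
    apply integrableOn_mul_sum_Icc rr hA0.le
    have hd : ∀ t ∈ Set.Icc A B, deriv (fun t : ℝ => 1 / t) t = -(1 / t ^ 2) := by
      intro t ht
      have h0 : t ≠ 0 := by have := ht.1; intro h; rw [h] at this; linarith
      simp only [one_div]
      rw [deriv_inv']
    apply ContinuousOn.integrableOn_Icc
    refine ContinuousOn.congr (f := fun t : ℝ => -(1 / t ^ 2)) ?_ hd
    apply ContinuousOn.neg
    apply ContinuousOn.div continuousOn_const (by fun_prop)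
    intro t ht
    have : 0 < t := lt_of_lt_of_le hA0 ht.1
    positivity
  have hI2 : IntegrableOn (fun t : ℝ => κ * t⁻¹) (Set.Ioc A B) := by
    apply IntegrableOn.mono_set _ Set.Ioc_subset_Icc_self
    apply ContinuousOn.integrableOn_Icc
    apply ContinuousOn.mul continuousOn_const
    apply ContinuousOn.inv₀ continuousOn_id
    intro t ht
    have : 0 < t := lt_of_lt_of_le hA0 ht.1
    exact this.ne'
  have hI3 : IntegrableOn (fun t : ℝ => E t / t ^ 2) (Set.Ioc A B) := by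
    have h1 := ((hI1.mono_set Set.Ioc_subset_Icc_self).neg).sub hI2
    refine (integrableOn_congr_fun ?_ measurableSet_Ioc).1 h1
    intro t ht
    have h0 : 0 < t := hA0.trans ht.1
    simp only [Pi.sub_apply, Pi.neg_apply]
    simp only [one_div]
    rw [deriv_inv']
    simp only [hE, hS]
    field_simp
  have hlog : ∫ t in Set.Ioc A B, κ * t⁻¹ = κ * Real.log (B / A) := by
    rw [integral_const_mul, ← intervalIntegral.integral_of_le hAB,
      integral_inv_of_pos hA0 hB0]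
  have hEi : |∫ t in Set.Ioc A B, E t / t ^ 2| ≤ 2 * C / Real.sqrt A := by
    have h1 : ∀ t ∈ Set.Ioc A B, |E t / t ^ 2| ≤ C * t ^ (-(3 / 2) : ℝ) := by
      intro t ht
      have h0 : 0 < t := hA0.trans ht.1
      have h2 := hEb t (hA.trans ht.1.le)
      rw [abs_div, abs_of_pos (by positivity : (0 : ℝ) < t ^ 2), div_le_iff₀ (by positivity)]
      have key : Real.sqrt t = t ^ (-(3 / 2) : ℝ) * t ^ 2 := by
        rw [Real.sqrt_eq_rpow, ← Real.rpow_natCast t 2, ← Real.rpow_add h0]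
        norm_num
      calc |E t| ≤ C * Real.sqrt t := h2
        _ = C * t ^ (-(3 / 2) : ℝ) * t ^ 2 := by
            rw [key]; ring
    have h2 : IntegrableOn (fun t : ℝ => C * t ^ (-(3 / 2) : ℝ)) (Set.Ioc A B) := by
      apply IntegrableOn.mono_set _ Set.Ioc_subset_Icc_self
      apply ContinuousOn.integrableOn_Icc
      apply ContinuousOn.mul continuousOn_const
      intro t ht
      have : 0 < t := lt_of_lt_of_le hA0 ht.1
      exact (Real.continuousAt_rpow_const t _ (Or.inl this.ne')).continuousWithinAt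
    calc |∫ t in Set.Ioc A B, E t / t ^ 2| ≤ ∫ t in Set.Ioc A B, |E t / t ^ 2| :=
          abs_integral_le_integral_abs
      _ ≤ ∫ t in Set.Ioc A B, C * t ^ (-(3 / 2) : ℝ) :=
          setIntegral_mono_on hI3.abs h2 measurableSet_Ioc h1
      _ = C * ((B ^ (-(1 / 2) : ℝ) - A ^ (-(1 / 2) : ℝ)) / (-(1 / 2))) := by
          rw [integral_const_mul, ← intervalIntegral.integral_of_le hAB, integral_rpow]
          · norm_num
          · right
            constructor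
            · norm_num
            · rw [Set.uIcc_of_le hAB]
              intro h
              linarith [h.1]
      _ ≤ 2 * C / Real.sqrt A := by
          have h3 : A ^ (-(1 / 2) : ℝ) = 1 / Real.sqrt A := by
            rw [Real.rpow_neg hA0.le, Real.sqrt_eq_rpow]
            ring
          have h4 : 0 ≤ B ^ (-(1 / 2) : ℝ) := Real.rpow_nonneg hB0.le _
          have h5 : (B ^ (-(1 / 2) : ℝ) - A ^ (-(1 / 2) : ℝ)) / (-(1 / 2)) ≤ 2 * (1 / Real.sqrt A) := by
            rw [← h3, div_le_iff_of_neg (by norm_num)]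
            linarith
          calc C * ((B ^ (-(1 / 2) : ℝ) - A ^ (-(1 / 2) : ℝ)) / (-(1 / 2)))
              ≤ C * (2 * (1 / Real.sqrt A)) := mul_le_mul_of_nonneg_left h5 hC0
            _ = _ := by ring
  rw [hint, integral_add hI2 hI3, hlog]
  have hsA : 0 < Real.sqrt A := Real.sqrt_pos.2 hA0
  have hsB : 0 < Real.sqrt B := Real.sqrt_pos.2 hB0
  have e1 : |E A / A| ≤ C / Real.sqrt A := by
    rw [abs_div, abs_of_pos hA0, div_le_div_iff₀ hA0 hsA]
    calc |E A| * Real.sqrt A ≤ C * Real.sqrt A * Real.sqrt A :=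
          mul_le_mul_of_nonneg_right (hEb A hA) hsA.le
      _ = C * A := by rw [mul_assoc, Real.mul_self_sqrt hA0.le]
  have e2 : |E B / B| ≤ C / Real.sqrt A := by
    have e3 : |E B / B| ≤ C / Real.sqrt B := by
      rw [abs_div, abs_of_pos hB0, div_le_div_iff₀ hB0 hsB]
      calc |E B| * Real.sqrt B ≤ C * Real.sqrt B * Real.sqrt B :=
            mul_le_mul_of_nonneg_right (hEb B (hA.trans hAB)) hsB.le
        _ = C * B := by rw [mul_assoc, Real.mul_self_sqrt hB0.le]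
    exact e3.trans (div_le_div_of_nonneg_left hC0 hsA (Real.sqrt_le_sqrt hAB))
  have e4 : 1 / B * S B - 1 / A * S A -
      -(κ * Real.log (B / A) + ∫ t in Set.Ioc A B, E t / t ^ 2) -
      κ * Real.log (B / A) = E B / B - E A / A + ∫ t in Set.Ioc A B, E t / t ^ 2 := by
    simp only [hE]
    field_simp
    ring
  rw [e4]
  have e5 := abs_add_le (E B / B - E A / A) (∫ t in Set.Ioc A B, E t / t ^ 2)
  have e6 := abs_sub (E B / B) (E A / A)
  have e7 : 4 * C / Real.sqrt A = C / Real.sqrt A + C / Real.sqrt A + 2 * C / Real.sqrt A := by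
    ring
  rw [e7]
  linarith

/-! ### rows -/

/-- the integers in an interval in a residue class -/
lemma row_card (α β : ℝ) (hab : α ≤ β) (d : ℕ) (hd : 1 ≤ d) (m : ℤ) :
    |((((Icc ⌈α⌉ ⌊β⌋).filter (fun x : ℤ => (d : ℤ) ∣ x + m)).card : ℕ) : ℝ) - (β - α) / d| ≤ 1 := by
  have hd0 : (0 : ℝ) < d := by exact_mod_cast hd
  have hdz : (0 : ℤ) < d := by exact_mod_cast hd
  set u : ℝ := (α + m) / d with hu
  set v : ℝ := (β + m) / d with hv
  have huv : u ≤ v := by
    rw [hu, hv]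
    exact div_le_div_of_nonneg_right (by linarith) hd0.le
  have hcard : ((Icc ⌈α⌉ ⌊β⌋).filter (fun x : ℤ => (d : ℤ) ∣ x + m)).card = (Icc ⌈u⌉ ⌊v⌋).card := by
    symm
    refine Finset.card_bij (fun k _ => (d : ℤ) * k - m) ?_ ?_ ?_
    · intro k hk
      rw [mem_Icc, Int.ceil_le, Int.le_floor, hu, hv, div_le_iff₀ hd0, le_div_iff₀ hd0] at hk
      rw [mem_filter, mem_Icc, Int.ceil_le, Int.le_floor]
      push_cast
      refine ⟨⟨by linarith [hk.1], by linarith [hk.2]⟩, ⟨k, by ring⟩⟩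
    · intro k _ l _ h
      have h1 : (d : ℤ) * k = (d : ℤ) * l := by
        have := h
        linarith
      exact mul_left_cancel₀ hdz.ne' h1
    · intro x hx
      rw [mem_filter, mem_Icc, Int.ceil_le, Int.le_floor] at hx
      obtain ⟨⟨h1, h2⟩, ⟨k, hk⟩⟩ := hx
      have hkR : (x : ℝ) + m = d * k := by exact_mod_cast hk
      refine ⟨k, ?_, by linarith⟩
      rw [mem_Icc, Int.ceil_le, Int.le_floor, hu, hv, div_le_iff₀ hd0, le_div_iff₀ hd0]
      constructor <;> nlinarith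
  rw [hcard, Int.card_Icc]
  have h1 := Int.lt_floor_add_one v
  have h2 := Int.ceil_lt_add_one u
  have h3 := Int.floor_le v
  have h4 := Int.le_ceil u
  have h5 : (0 : ℤ) ≤ ⌊v⌋ + 1 - ⌈u⌉ := by
    have : (⌈u⌉ : ℝ) - 1 < ⌊v⌋ + 1 := by linarith
    have h6 : ⌈u⌉ - 1 < ⌊v⌋ + 1 := by exact_mod_cast this
    omega
  have h6 : (((⌊v⌋ + 1 - ⌈u⌉).toNat : ℕ) : ℝ) = (⌊v⌋ : ℝ) + 1 - ⌈u⌉ := by
    have : (((⌊v⌋ + 1 - ⌈u⌉).toNat : ℕ) : ℤ) = ⌊v⌋ + 1 - ⌈u⌉ := Int.toNat_of_nonneg h5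
    exact_mod_cast this
  rw [h6]
  have h7 : (β - α) / d = v - u := by
    rw [hu, hv]
    ring
  rw [h7, abs_le]
  constructor <;> linarith

variable {t c : ℤ}

/-- length of the row -/
noncomputable def rl (t c : ℤ) (X : ℝ) (y : ℝ) : ℝ := Real.sqrt (4 * X - (4 * c - t ^ 2) * y ^ 2)

lemma rl_nonneg (X y : ℝ) : 0 ≤ rl t c X y := Real.sqrt_nonneg _

/-- half the number of rows -/
noncomputable def Yb (t c : ℤ) (X : ℝ) : ℕ := ⌊Real.sqrt (4 * X / (4 * c - t ^ 2))⌋₊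

lemma mem_rows (hD : t ^ 2 < 4 * c) {X : ℝ} (hX : 0 ≤ X) (y : ℤ) :
    y ∈ Icc (-(Yb t c X : ℤ)) (Yb t c X) ↔ (4 * c - t ^ 2) * (y : ℝ) ^ 2 ≤ 4 * X := by
  have hp := disc_pos hD
  rw [mem_Icc, ← abs_le]
  unfold Yb
  have h1 : |y| ≤ (⌊Real.sqrt (4 * X / (4 * c - t ^ 2))⌋₊ : ℤ) ↔
      y.natAbs ≤ ⌊Real.sqrt (4 * X / (4 * c - t ^ 2))⌋₊ := by
    rw [Int.abs_eq_natAbs]
    exact Nat.cast_le
  rw [h1, Nat.le_floor_iff (Real.sqrt_nonneg _),
    Real.le_sqrt (Nat.cast_nonneg _) (div_nonneg (by linarith) hp.le), le_div_iff₀ hp]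
  have h2 : ((y.natAbs : ℕ) : ℝ) ^ 2 = (y : ℝ) ^ 2 := by
    rw [Nat.cast_natAbs]
    push_cast
    exact sq_abs _
  rw [h2, mul_comm]

lemma mem_row (X : ℝ) {y : ℤ} (hy : (4 * c - t ^ 2) * (y : ℝ) ^ 2 ≤ 4 * X) (x : ℤ) :
    x ∈ Icc ⌈(-(t * y) - rl t c X y) / 2⌉ ⌊(-(t * y) + rl t c X y) / 2⌋ ↔
      (x : ℝ) ^ 2 + t * x * y + c * (y : ℝ) ^ 2 ≤ X := by
  rw [mem_Icc, Int.ceil_le, Int.le_floor]
  have h1 : (x : ℝ) ^ 2 + t * x * y + c * (y : ℝ) ^ 2 ≤ X ↔
      (2 * x + t * y : ℝ) ^ 2 ≤ 4 * X - (4 * c - t ^ 2) * (y : ℝ) ^ 2 := by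
    constructor <;> intro h <;> nlinarith
  rw [h1, Real.sq_le (by linarith)]
  change _ ↔ -rl t c X y ≤ _ ∧ _ ≤ rl t c X y
  constructor
  · rintro ⟨h2, h3⟩
    constructor <;> linarith
  · rintro ⟨h2, h3⟩
    constructor <;> linarith

lemma count_rows (hD : t ^ 2 < 4 * c) {X : ℝ} (hX : 1 ≤ X) (d : ℕ) (r : ℤ) :
    ((ball t c X).filter (lat d r)).card + 1 =
      ∑ y ∈ Icc (-(Yb t c X : ℤ)) (Yb t c X),
        ((Icc ⌈(-(t * y) - rl t c X y) / 2⌉ ⌊(-(t * y) + rl t c X y) / 2⌋).filter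
          (fun x : ℤ => (d : ℤ) ∣ x + r * y)).card := by
  have hX0 : (0 : ℝ) ≤ X := by linarith
  have h0 : (0 : Qd t c) ∉ (ball t c X).filter (lat d r) := by
    intro h
    rw [mem_filter, mem_ball hD] at h
    have := h.1.1
    rw [nm_zero] at this
    omega
  rw [← Finset.card_insert_of_notMem h0]
  set T : Finset (Qd t c) := insert 0 ((ball t c X).filter (lat d r)) with hT
  have hmem : ∀ z : Qd t c, z ∈ T ↔ ((z.re : ℝ) ^ 2 + t * z.re * z.im + c * (z.im : ℝ) ^ 2 ≤ X) ∧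
      (d : ℤ) ∣ z.re + r * z.im := by
    intro z
    rw [hT, mem_insert, mem_filter, mem_ball hD, one_le_nm hD, ← nm_castR hD]
    constructor
    · rintro (rfl | h)
      · rw [nm_zero]
        refine ⟨by simpa using hX0, by simp⟩
      · exact ⟨h.1.2, h.2⟩
    · rintro ⟨h1, h2⟩
      by_cases hz : z = 0
      · exact Or.inl hz
      · exact Or.inr ⟨⟨hz, h1⟩, h2⟩
  have hmaps : ∀ z ∈ T, z.im ∈ Icc (-(Yb t c X : ℤ)) (Yb t c X) := by
    intro z hz
    rw [mem_rows hD hX0]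
    have h1 := ((hmem z).1 hz).1
    nlinarith [sq_nonneg (2 * (z.re : ℝ) + t * z.im)]
  rw [Finset.card_eq_sum_card_fiberwise hmaps]
  refine Finset.sum_congr rfl fun y hy => ?_
  rw [mem_rows hD hX0] at hy
  refine Finset.card_bij (fun z _ => z.re) ?_ ?_ ?_
  · intro z hz
    rw [mem_filter, hmem] at hz
    obtain ⟨⟨h1, h2⟩, rfl⟩ := hz
    rw [mem_filter, mem_row X hy]
    exact ⟨h1, h2⟩
  · intro z hz u hu h
    rw [mem_filter] at hz hu
    exact QuadraticAlgebra.ext h (hz.2.trans hu.2.symm)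
  · intro x hx
    rw [mem_filter, mem_row X hy] at hx
    refine ⟨⟨x, y⟩, ?_, rfl⟩
    rw [mem_filter, hmem]
    exact ⟨⟨hx.1, hx.2⟩, rfl⟩

lemma Yb_le (hD : t ^ 2 < 4 * c) {X : ℝ} (hX : 0 ≤ X) : (Yb t c X : ℝ) ≤ 2 * Real.sqrt X := by
  have h3 := three_le_disc hD
  have hp := disc_pos hD
  unfold Yb
  refine (Nat.floor_le (Real.sqrt_nonneg _)).trans ?_
  have h4 : 2 * Real.sqrt X = Real.sqrt (4 * X) := by
    rw [Real.sqrt_mul (by norm_num), show (4 : ℝ) = 2 ^ 2 by norm_num,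
      Real.sqrt_sq (by norm_num)]
  rw [h4]
  apply Real.sqrt_le_sqrt
  rw [div_le_iff₀ hp]
  nlinarith

lemma integral_half : ∫ u in (0 : ℝ)..1, Real.sqrt (1 - u ^ 2) = Real.pi / 4 := by
  have hc : Continuous fun u : ℝ => Real.sqrt (1 - u ^ 2) := by fun_prop
  have h1 := integral_sqrt_one_sub_sq
  have h2 : ∫ u in (-1 : ℝ)..0, Real.sqrt (1 - u ^ 2) = ∫ u in (0 : ℝ)..1, Real.sqrt (1 - u ^ 2) := by
    have := intervalIntegral.integral_comp_neg (f := fun u : ℝ => Real.sqrt (1 - u ^ 2))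
      (a := 0) (b := 1)
    rw [neg_zero] at this
    rw [← this]
    simp
  have h3 := intervalIntegral.integral_add_adjacent_intervals
    (hc.intervalIntegrable (μ := volume) (-1) 0) (hc.intervalIntegrable (μ := volume) 0 1)
  rw [h2, h1] at h3
  linarith

lemma integral_rl (hD : t ^ 2 < 4 * c) {X : ℝ} (hX : 1 ≤ X) (a : ℝ)
    (ha : Real.sqrt (4 * X / (4 * c - t ^ 2)) ≤ a) :
    ∫ y in (0 : ℝ)..a, rl t c X y = kap t c * X / 2 := by
  have hp := disc_pos hD
  set D : ℝ := 4 * c - t ^ 2 with hDdef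
  have hX0 : 0 < X := by linarith
  set b : ℝ := Real.sqrt (4 * X / D) with hb
  have hb0 : 0 < b := Real.sqrt_pos.2 (by positivity)
  have hb2 : b ^ 2 = 4 * X / D := Real.sq_sqrt (by positivity)
  have h1 : ∀ y : ℝ, rl t c X y = Real.sqrt (4 * X) * Real.sqrt (1 - (y / b) ^ 2) := by
    intro y
    unfold rl
    rw [← hDdef, ← Real.sqrt_mul (by positivity)]
    congr 1
    rw [div_pow, hb2]
    field_simp
  simp only [h1]
  rw [intervalIntegral.integral_const_mul]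
  have h2 := intervalIntegral.integral_comp_div (f := fun u : ℝ => Real.sqrt (1 - u ^ 2))
    (a := 0) (b := a) hb0.ne'
  rw [h2, zero_div, smul_eq_mul]
  have hc : Continuous fun u : ℝ => Real.sqrt (1 - u ^ 2) := by fun_prop
  have h3 := intervalIntegral.integral_add_adjacent_intervals
    (hc.intervalIntegrable (μ := volume) 0 1) (hc.intervalIntegrable (μ := volume) 1 (a / b))
  have h4 : ∫ u in (1 : ℝ)..(a / b), Real.sqrt (1 - u ^ 2) = 0 := by
    apply intervalIntegral.integral_zero_ae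
    refine Filter.Eventually.of_forall fun u hu => ?_
    have h5 : 1 ≤ a / b := by rwa [le_div_iff₀ hb0, one_mul]
    rw [Set.uIoc_of_le h5] at hu
    apply Real.sqrt_eq_zero_of_nonpos
    nlinarith [hu.1]
  rw [← h3, h4, integral_half, add_zero]
  unfold kap
  rw [← hDdef]
  have hs : Real.sqrt (4 * X) * b = 4 * X / Real.sqrt D := by
    rw [hb, Real.sqrt_div (by positivity), ← mul_div_assoc, Real.mul_self_sqrt (by positivity)]
  calc Real.sqrt (4 * X) * (b * (Real.pi / 4)) = (Real.sqrt (4 * X) * b) * (Real.pi / 4) := by ring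
    _ = _ := by
      rw [hs]
      field_simp

lemma sum_sym (f : ℤ → ℝ) (hf : ∀ y, f (-y) = f y) (n : ℕ) :
    ∑ y ∈ Icc (-(n : ℤ)) n, f y = f 0 + 2 * ∑ i ∈ range n, f ((i : ℤ) + 1) := by
  induction n with
  | zero => simp
  | succ n ih =>
    have h1 : Icc (-((n + 1 : ℕ) : ℤ)) ((n + 1 : ℕ) : ℤ) =
        insert (-((n : ℤ) + 1)) (insert ((n : ℤ) + 1) (Icc (-(n : ℤ)) n)) := by
      ext y
      simp only [mem_insert, mem_Icc]
      push_cast
      omega
    rw [h1, sum_insert, sum_insert, ih, sum_range_succ, hf]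
    · ring
    · simp
    · simp only [mem_insert, mem_Icc, not_or, not_and, not_le]
      omega

lemma sum_rl (hD : t ^ 2 < 4 * c) {X : ℝ} (hX : 1 ≤ X) :
    |∑ y ∈ Icc (-(Yb t c X : ℤ)) (Yb t c X), rl t c X y - kap t c * X| ≤ 2 * Real.sqrt X := by
  have hp := disc_pos hD
  have hX0 : 0 < X := by linarith
  rw [sum_sym (fun y : ℤ => rl t c X y) (fun y => by unfold rl; push_cast; rw [neg_sq])]
  set n := Yb t c X with hn
  have h0 : rl t c X ((0 : ℤ) : ℝ) = 2 * Real.sqrt X := by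
    unfold rl
    rw [show (4 * X - (4 * (c : ℝ) - (t : ℝ) ^ 2) * ((0 : ℤ) : ℝ) ^ 2) = 2 ^ 2 * X by push_cast; ring,
      Real.sqrt_mul (by norm_num), Real.sqrt_sq (by norm_num)]
  have hanti : AntitoneOn (rl t c X) (Set.Icc (0 : ℝ) (0 + ((n + 1 : ℕ) : ℝ))) := by
    intro x hx y _ hxy
    unfold rl
    apply Real.sqrt_le_sqrt
    have : x ^ 2 ≤ y ^ 2 := by
      have := hx.1
      nlinarith
    nlinarith
  have hb : Real.sqrt (4 * X / (4 * c - t ^ 2)) ≤ ((n + 1 : ℕ) : ℝ) := by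
    rw [hn]
    unfold Yb
    push_cast
    exact (Nat.lt_floor_add_one _).le
  have hI := integral_rl hD hX _ hb
  have h1 := hanti.sum_le_integral
  have h2 := hanti.integral_le_sum
  rw [zero_add, hI] at h1 h2
  have h3 : ∑ i ∈ range (n + 1), rl t c X (0 + ((i + 1 : ℕ) : ℝ)) =
      ∑ i ∈ range n, rl t c X (((i : ℤ) + 1 : ℤ) : ℝ) := by
    rw [sum_range_succ]
    have h4 : rl t c X (0 + ((n + 1 : ℕ) : ℝ)) = 0 := by
      unfold rl
      apply Real.sqrt_eq_zero_of_nonpos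
      rw [zero_add]
      have h5 := Real.sq_sqrt (show 0 ≤ 4 * X / (4 * (c : ℝ) - (t : ℝ) ^ 2) by positivity)
      have h6 : 4 * X / (4 * (c : ℝ) - (t : ℝ) ^ 2) ≤ (((n + 1 : ℕ) : ℝ)) ^ 2 := by
        rw [← h5]
        exact pow_le_pow_left₀ (Real.sqrt_nonneg _) hb 2
      rw [div_le_iff₀ hp] at h6
      linarith
    rw [h4, add_zero]
    refine sum_congr rfl fun i _ => ?_
    congr 1
    push_cast
    ring
  have h4 : ∑ i ∈ range (n + 1), rl t c X (0 + (i : ℝ)) =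
      rl t c X ((0 : ℤ) : ℝ) + ∑ i ∈ range n, rl t c X (((i : ℤ) + 1 : ℤ) : ℝ) := by
    rw [sum_range_succ', add_comm]
    congr 1
    · simp
    · refine sum_congr rfl fun i _ => ?_
      congr 1
      push_cast
      ring
  rw [h3] at h1
  rw [h4, h0] at h2
  rw [h0, abs_le]
  constructor <;> linarith

theorem lat1 (hD : t ^ 2 < 4 * c) (X : ℝ) (d : ℕ) (r : ℤ) (hX : 1 ≤ X) (hd : 1 ≤ d) :
    |(((ball t c X).filter (lat d r)).card : ℝ) - kap t c * X / d| ≤ 8 * Real.sqrt X := by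
  have hX0 : 0 ≤ X := by linarith
  have hd0 : (1 : ℝ) ≤ d := by exact_mod_cast hd
  have hs : 1 ≤ Real.sqrt X := by rwa [Real.one_le_sqrt]
  have h1 := count_rows hD hX d r
  have h1R : (((ball t c X).filter (lat d r)).card : ℝ) + 1 =
      ∑ y ∈ Icc (-(Yb t c X : ℤ)) (Yb t c X),
        ((((Icc ⌈(-(t * y) - rl t c X y) / 2⌉ ⌊(-(t * y) + rl t c X y) / 2⌋).filter
          (fun x : ℤ => (d : ℤ) ∣ x + r * y)).card : ℕ) : ℝ) := by
    exact_mod_cast h1
  have h2 : |∑ y ∈ Icc (-(Yb t c X : ℤ)) (Yb t c X),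
        ((((Icc ⌈(-(t * y) - rl t c X y) / 2⌉ ⌊(-(t * y) + rl t c X y) / 2⌋).filter
          (fun x : ℤ => (d : ℤ) ∣ x + r * y)).card : ℕ) : ℝ) -
        (∑ y ∈ Icc (-(Yb t c X : ℤ)) (Yb t c X), rl t c X y) / d| ≤ 5 * Real.sqrt X := by
    rw [Finset.sum_div, ← Finset.sum_sub_distrib]
    refine (Finset.abs_sum_le_sum_abs _ _).trans ?_
    refine (Finset.sum_le_card_nsmul _ _ 1 ?_).trans ?_
    · intro y _
      have h3 := row_card ((-(t * y) - rl t c X y) / 2) ((-(t * y) + rl t c X y) / 2)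
        (by linarith [rl_nonneg (t := t) (c := c) X y]) d hd (r * y)
      have h4 : ((-((t : ℝ) * y) + rl t c X y) / 2 - (-(t * y) - rl t c X y) / 2) = rl t c X y := by
        ring
      rw [h4] at h3
      exact h3
    · rw [Int.card_Icc, nsmul_eq_mul, mul_one]
      have h5 : (((Yb t c X : ℤ) + 1 - -(Yb t c X : ℤ)).toNat : ℝ) = 2 * (Yb t c X : ℝ) + 1 := by
        have : ((Yb t c X : ℤ) + 1 - -(Yb t c X : ℤ)).toNat = 2 * Yb t c X + 1 := by omega
        rw [this]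
        push_cast
        ring
      rw [h5]
      have := Yb_le hD hX0
      linarith
  have h3 := sum_rl hD hX
  set S : ℝ := ∑ y ∈ Icc (-(Yb t c X : ℤ)) (Yb t c X), rl t c X y with hS
  rw [← h1R] at h2
  have h4 : |S / d - kap t c * X / d| ≤ 2 * Real.sqrt X := by
    rw [← sub_div, abs_div, abs_of_pos (by linarith : (0 : ℝ) < d), div_le_iff₀ (by linarith)]
    refine h3.trans ?_
    nlinarith
  rw [abs_le] at h2 h4 ⊢
  constructor <;> linarith [h2.1, h2.2, h4.1, h4.2]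

/-- the number of elements of the lattice of norm `n` -/
noncomputable def rr (t c : ℤ) (d : ℕ) (r : ℤ) (n : ℕ) : ℝ :=
  ((((ball t c n).filter (lat d r)).filter (fun z => nm z = n)).card : ℝ)

lemma filter_ball (hD : t ^ 2 < 4 * c) (d : ℕ) (r : ℤ) (n : ℕ) (X : ℝ) (hn : (n : ℝ) ≤ X) :
    ((ball t c X).filter (lat d r)).filter (fun z => nm z = n) =
      ((ball t c n).filter (lat d r)).filter (fun z => nm z = n) := by
  ext z
  rw [mem_filter, mem_filter, mem_filter, mem_filter, mem_ball hD, mem_ball hD]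
  constructor
  · rintro ⟨⟨⟨h1, _⟩, h2⟩, h3⟩
    exact ⟨⟨⟨h1, by rw [h3]⟩, h2⟩, h3⟩
  · rintro ⟨⟨⟨h1, _⟩, h2⟩, h3⟩
    exact ⟨⟨⟨h1, by rw [h3]; exact hn⟩, h2⟩, h3⟩

lemma sum_rr (hD : t ^ 2 < 4 * c) (d : ℕ) (r : ℤ) (X : ℝ) (hX : 0 ≤ X) :
    ∑ n ∈ Icc 0 ⌊X⌋₊, rr t c d r n = (((ball t c X).filter (lat d r)).card : ℝ) := by
  have h1 : ∀ z ∈ (ball t c X).filter (lat d r), nm z ∈ Icc 0 ⌊X⌋₊ := by
    intro z hz
    rw [mem_filter, mem_ball hD] at hz
    rw [Finset.mem_Icc]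
    exact ⟨Nat.zero_le _, Nat.le_floor hz.1.2⟩
  rw [Finset.card_eq_sum_card_fiberwise h1]
  push_cast
  refine Finset.sum_congr rfl fun n hn => ?_
  rw [Finset.mem_Icc] at hn
  unfold rr
  rw [filter_ball hD d r n X ((Nat.cast_le.2 hn.2).trans (Nat.floor_le hX))]

lemma sum_ann (hD : t ^ 2 < 4 * c) (d : ℕ) (r : ℤ) (f : ℕ → ℝ) (A B : ℝ) (hA : 0 ≤ A)
    (hAB : A ≤ B) :
    ∑ z ∈ (ann t c A B).filter (lat d r), f (nm z) =
      ∑ n ∈ Ioc ⌊A⌋₊ ⌊B⌋₊, f n * rr t c d r n := by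
  have h1 : ∀ z ∈ (ann t c A B).filter (lat d r), nm z ∈ Ioc ⌊A⌋₊ ⌊B⌋₊ := by
    intro z hz
    rw [mem_filter, mem_ann hD] at hz
    rw [Finset.mem_Ioc]
    exact ⟨(Nat.floor_lt hA).2 hz.1.2.1, Nat.le_floor hz.1.2.2⟩
  rw [← Finset.sum_fiberwise_of_maps_to h1]
  refine Finset.sum_congr rfl fun n hn => ?_
  rw [Finset.mem_Ioc] at hn
  have h2 : ((ann t c A B).filter (lat d r)).filter (fun z => nm z = n) =
      ((ball t c n).filter (lat d r)).filter (fun z => nm z = n) := by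
    ext z
    rw [mem_filter, mem_filter, mem_filter, mem_filter, mem_ball hD, mem_ann hD]
    constructor
    · rintro ⟨⟨⟨h1, _⟩, h2⟩, h3⟩
      exact ⟨⟨⟨h1, by rw [h3]⟩, h2⟩, h3⟩
    · rintro ⟨⟨⟨h1, _⟩, h2⟩, h3⟩
      refine ⟨⟨⟨h1, ?_, ?_⟩, h2⟩, h3⟩
      · rw [h3]
        exact (Nat.floor_lt hA).1 hn.1
      · rw [h3]
        exact (Nat.cast_le.2 hn.2).trans (Nat.floor_le (hA.trans hAB))
  rw [h2]
  have h3 : ∀ z ∈ ((ball t c n).filter (lat d r)).filter (fun z => nm z = n),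
      f (nm z) = f n := by
    intro z hz
    rw [(Finset.mem_filter.1 hz).2]
  rw [Finset.sum_congr rfl h3, Finset.sum_const, nsmul_eq_mul, mul_comm]
  rfl

/-- task GA-4 -/
theorem lat (hD : t ^ 2 < 4 * c) : S_LAT t c := by
  refine ⟨32, by norm_num, ?_, ?_⟩
  · intro X d r hX hd
    refine (lat1 hD X d r hX hd).trans ?_
    have h2 := Real.sqrt_nonneg X
    linarith
  · intro A B d r hA hAB hd
    have h := partial_sum (rr t c d r) (kap t c / d) 8 (by norm_num) (by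
      intro X hX
      rw [sum_rr hD d r X (by linarith)]
      have := lat1 hD X d r hX hd
      rw [show kap t c / d * X = kap t c * X / d by ring]
      exact this) A B hA hAB
    rw [sum_ann hD d r (fun n => 1 / (n : ℝ)) A B (by linarith) hAB]
    refine h.trans (le_of_eq ?_)
    norm_num

end Pool.Agent.W45.GA
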